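import Pool.Agent.H23.HG.WCL

/-!
# Board hg, row ALG: the algebraic core
-/

set_option autoImplicit false

namespace Pool.Agent.H23.HG

open Pool.Agent.H3.HG
open scoped commutatorElement

theorem map_cs {G G' : Type} [Group G] [Group G'] (π : G →* G') (hπ : Function.Surjective π)
    (S : Subgroup G) (n : ℕ) : (cs S n).map π = cs (S.map π) n := by
  induction n with
  | zero => rfl
  | succ n ih =>
    change (⁅cs S n, (⊤ : Subgroup G)⁆).map π = ⁅cs (S.map π) n, (⊤ : Subgroup G')⁆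
    rw [Subgroup.map_commutator, ih, ← MonoidHom.range_eq_map, MonoidHom.range_eq_top.2 hπ]

theorem pf_ALG (hGRP : T_GRP) : T_ALG := by
  intro F _ hFG S R hS hR hRS hnil x hx hxn
  set T : Subgroup F := ⁅(⊤ : Subgroup F), R⁆ ⊔ ⁅S, S⁆ with hT
  have hTn : T.Normal := inferInstance
  have hTS : T ≤ S := by
    refine sup_le ?_ ?_
    · exact (Subgroup.commutator_le_right _ _).trans hRS
    · exact Subgroup.commutator_le_right _ _
  set π := QuotientGroup.mk' T with hπ
  have hsurj : Function.Surjective π := QuotientGroup.mk'_surjective T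
  have hone : ∀ g ∈ T, π g = 1 := by
    intro g hg
    rw [hπ, QuotientGroup.mk'_apply, QuotientGroup.eq_one_iff]
    exact hg
  set A := S.map π with hA
  set B := R.map π with hB
  have hAn : A.Normal := hS.map π hsurj
  have hcomm : ∀ a ∈ A, ∀ b ∈ A, a * b = b * a := by
    rintro _ ⟨a, ha, rfl⟩ _ ⟨b, hb, rfl⟩
    have h1 : π ⁅a, b⁆ = 1 := hone _
      ((le_sup_right : ⁅S, S⁆ ≤ T) (Subgroup.commutator_mem_commutator ha hb))
    rw [map_commutatorElement, commutatorElement_eq_one_iff_mul_comm] at h1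
    exact h1
  have hnilA : Group.IsNilpotent ((F ⧸ T) ⧸ A) := by
    have e := QuotientGroup.quotientQuotientEquivQuotient T S hTS
    exact Group.nilpotent_of_mulEquiv e.symm
  have hBA : B ≤ A := Subgroup.map_mono hRS
  have hBc : B ≤ Subgroup.center (F ⧸ T) := by
    rintro _ ⟨r, hr, rfl⟩
    rw [Subgroup.mem_center_iff]
    intro g
    obtain ⟨g', rfl⟩ := hsurj g
    have h1 : π ⁅g', r⁆ = 1 := hone _ ((le_sup_left : ⁅(⊤ : Subgroup F), R⁆ ≤ T)
      (Subgroup.commutator_mem_commutator (Subgroup.mem_top g') hr))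
    rw [map_commutatorElement, commutatorElement_eq_one_iff_mul_comm] at h1
    exact h1
  obtain ⟨k, hk⟩ := hGRP (F ⧸ T) A hcomm hnilA B hBA hBc
  obtain ⟨c, hc⟩ := Subgroup.nilpotent_iff_lowerCentralSeries.1 hnil
  have hLS : (⊤ : Subgroup F).lowerCentralSeries c ≤ S := by
    have h3 := map_lcs (QuotientGroup.mk' S) (QuotientGroup.mk'_surjective S) c
    rw [hc, Subgroup.map_eq_bot_iff, QuotientGroup.ker_mk'] at h3
    exact h3
  have hLk : ∀ j, (⊤ : Subgroup F).lowerCentralSeries (c + j) ≤ cs S j := by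
    intro j
    induction j with
    | zero => exact hLS
    | succ j ih => exact Subgroup.commutator_mono ih le_rfl
  obtain ⟨u, hu, v, hv, huv⟩ := (Subgroup.mem_sup_of_normal_left
    (s := ⁅(⊤ : Subgroup F), R⁆)).1 (hxn (c + k))
  have h1 : π x ∈ cs A k ⊓ B := by
    refine ⟨?_, x, hx, rfl⟩
    rw [hA, ← map_cs π hsurj]
    refine ⟨v, hLk k hv, ?_⟩
    have h2 : π u = 1 := hone _ ((le_sup_left : ⁅(⊤ : Subgroup F), R⁆ ≤ T) hu)
    have h3 : π x = π u * π v := by rw [← map_mul, huv]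
    rw [h3, h2, one_mul]
  rw [hk, Subgroup.mem_bot, hπ, QuotientGroup.mk'_apply, QuotientGroup.eq_one_iff] at h1
  obtain ⟨u, hu, y, hy, huy⟩ := (Subgroup.mem_sup_of_normal_left
    (s := ⁅(⊤ : Subgroup F), R⁆)).1 h1
  refine ⟨u, hu, y, ⟨?_, hy⟩, huy.symm⟩
  have h2 : y = u⁻¹ * x := by rw [← huy]; group
  rw [h2]
  exact R.mul_mem (R.inv_mem (Subgroup.commutator_le_right _ _ hu)) hx

end Pool.Agent.H23.HG
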