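import Pool.Agent.H23.HG.WCL

/-!
# Board hg, row NFG: finitely generated nilpotent quotients are finitely presented
-/

set_option autoImplicit false

namespace Pool.Agent.H23.HG

open Pool.Agent.H3.HG
open scoped commutatorElement

theorem Cw_finite {G : Type} [Group G] (X : Set G) (hX : X.Finite) (n : ℕ) : (Cw X n).Finite := by
  induction n with
  | zero => exact hX
  | succ n ih =>
    refine (Set.Finite.image2 (fun a x => ⁅a, x⁆) ih hX).subset ?_
    rintro _ ⟨a, ha, x, hx, rfl⟩
    exact ⟨a, ha, x, hx, rfl⟩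

theorem Cw_sub {G : Type} [Group G] (X : Set G) (n : ℕ) :
    Cw X n ⊆ ((⊤ : Subgroup G).lowerCentralSeries n : Set G) := by
  induction n with
  | zero => exact fun x _ => Subgroup.mem_top x
  | succ n ih =>
    rintro _ ⟨a, ha, x, _, rfl⟩
    exact Subgroup.commutator_mem_commutator (ih ha) (Subgroup.mem_top x)

theorem pf_NFG (hNOE : T_NOE) (hWCL : T_WCL) : T_NFG := by
  intro G _ hFG S hS hnil
  obtain ⟨c, hc⟩ := Subgroup.nilpotent_iff_lowerCentralSeries.1 hnil
  have hLS : (⊤ : Subgroup G).lowerCentralSeries c ≤ S := by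
    have h3 := map_lcs (QuotientGroup.mk' S) (QuotientGroup.mk'_surjective S) c
    rw [hc, Subgroup.map_eq_bot_iff, QuotientGroup.ker_mk'] at h3
    exact h3
  obtain ⟨X, hX, hXf⟩ := Group.fg_iff.1 hFG
  set W := Cw X c with hW
  have hWf : W.Finite := Cw_finite X hXf c
  set N := Subgroup.normalClosure W with hN
  have hNL : N ≤ (⊤ : Subgroup G).lowerCentralSeries c :=
    Subgroup.normalClosure_le_normal (Cw_sub X c)
  set π := QuotientGroup.mk' N with hπ
  have hsurj : Function.Surjective π := QuotientGroup.mk'_surjective N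
  have hbot : (⊤ : Subgroup (G ⧸ N)).lowerCentralSeries c = ⊥ := by
    refine hWCL (G ⧸ N) (π '' X) c (closure_image π hsurj X hX) ?_
    intro d hd
    obtain ⟨d', hd', rfl⟩ := Cw_image π X c hd
    rw [hπ, QuotientGroup.mk'_apply, QuotientGroup.eq_one_iff]
    exact Subgroup.subset_normalClosure hd'
  have hnilN : Group.IsNilpotent (G ⧸ N) := Subgroup.nilpotent_iff_lowerCentralSeries.2 ⟨c, hbot⟩
  have hFGN : Group.FG (G ⧸ N) := inferInstance
  obtain ⟨Y', hY'⟩ := hNOE (G ⧸ N) (S.map π)
  have hsub : ∀ y ∈ Y', ∃ s ∈ S, π s = y := by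
    intro y hy
    have : y ∈ S.map π := hY' ▸ Subgroup.subset_closure hy
    exact this
  choose! f hfS hf using hsub
  set Y : Set G := f '' (Y' : Set (G ⧸ N)) with hY
  have hYf : Y.Finite := (Finset.finite_toSet Y').image f
  have hYS : Y ⊆ S := by
    rintro _ ⟨y, hy, rfl⟩
    exact hfS y hy
  have hπY : π '' Y = (Y' : Set (G ⧸ N)) := by
    rw [hY, Set.image_image]
    ext z
    constructor
    · rintro ⟨y, hy, rfl⟩
      simp only
      rw [hf y hy]
      exact hy
    · intro hz
      exact ⟨z, hz, hf z hz⟩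
  refine ⟨Y ∪ W, hYf.union hWf, le_antisymm ?_ ?_⟩
  · refine Subgroup.normalClosure_le_normal (Set.union_subset hYS ?_)
    exact fun w hw => hLS (Cw_sub X c hw)
  · intro s hs
    have h1 : π s ∈ (Subgroup.closure Y).map π := by
      rw [MonoidHom.map_closure, hπY, hY']
      exact ⟨s, hs, rfl⟩
    obtain ⟨y, hy, hys⟩ := h1
    have h2 : y⁻¹ * s ∈ N := by
      rw [← QuotientGroup.ker_mk' N, MonoidHom.mem_ker, map_mul, map_inv]
      change (π y)⁻¹ * π s = 1
      rw [hys, inv_mul_cancel]
    have h3 : N ≤ Subgroup.normalClosure (Y ∪ W) :=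
      Subgroup.normalClosure_mono Set.subset_union_right
    have h4 : Subgroup.closure Y ≤ Subgroup.normalClosure (Y ∪ W) := by
      rw [Subgroup.closure_le]
      exact Set.subset_union_left.trans Subgroup.subset_normalClosure
    have h5 := Subgroup.mul_mem _ (h4 hy) (h3 h2)
    rwa [mul_inv_cancel_left] at h5

end Pool.Agent.H23.HG
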