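import Pool.Agent.H3.HG.Targets

/-!
# Board hg, row WCL: the lower central series and left normed commutators of generators
-/

set_option autoImplicit false

namespace Pool.Agent.H23.HG

open Pool.Agent.H3.HG
open scoped commutatorElement

theorem Cw_image {G G' : Type} [Group G] [Group G'] (π : G →* G') (X : Set G) (n : ℕ) :
    Cw (π '' X) n ⊆ π '' Cw X n := by
  induction n with
  | zero => exact subset_rfl
  | succ n ih =>
    rintro _ ⟨a, ha, x, hx, rfl⟩
    obtain ⟨a', ha', rfl⟩ := ih ha
    obtain ⟨x', hx', rfl⟩ := hx
    exact ⟨⁅a', x'⁆, ⟨a', ha', x', hx', rfl⟩, map_commutatorElement π a' x'⟩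

theorem closure_image {G G' : Type} [Group G] [Group G'] (π : G →* G')
    (hπ : Function.Surjective π) (X : Set G) (hX : Subgroup.closure X = ⊤) :
    Subgroup.closure (π '' X) = ⊤ := by
  rw [← MonoidHom.map_closure, hX, ← MonoidHom.range_eq_map, MonoidHom.range_eq_top.2 hπ]

theorem map_lcs {G G' : Type} [Group G] [Group G'] (π : G →* G')
    (hπ : Function.Surjective π) (n : ℕ) :
    ((⊤ : Subgroup G).lowerCentralSeries n).map π = (⊤ : Subgroup G').lowerCentralSeries n := by
  rw [Subgroup.map_lowerCentralSeries, ← MonoidHom.range_eq_map, MonoidHom.range_eq_top.2 hπ]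

theorem pf_WCL : T_WCL := by
  intro G _ X n
  induction n generalizing G with
  | zero =>
    intro hX hc
    rw [Subgroup.lowerCentralSeries_zero, ← hX, Subgroup.closure_eq_bot_iff]
    intro x hx
    exact hc x hx
  | succ n ih =>
    intro hX hc
    set π := QuotientGroup.mk' (Subgroup.center G) with hπ
    have hsurj : Function.Surjective π := QuotientGroup.mk'_surjective _
    have hcen : ∀ c ∈ Cw X n, c ∈ Subgroup.center G := by
      intro c hcn
      have h1 : Subgroup.closure X ≤ Subgroup.centralizer {c} := by
        rw [Subgroup.closure_le]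
        intro x hx
        rw [SetLike.mem_coe, Subgroup.mem_centralizer_singleton_iff]
        have h2 := hc ⁅c, x⁆ ⟨c, hcn, x, hx, rfl⟩
        rw [commutatorElement_eq_one_iff_mul_comm] at h2
        exact h2.symm
      rw [hX] at h1
      rw [Subgroup.mem_center_iff]
      intro g
      exact Subgroup.mem_centralizer_singleton_iff.1 (h1 (Subgroup.mem_top g))
    have h1 := ih (G ⧸ Subgroup.center G) (π '' X) (closure_image π hsurj X hX) (by
      intro c hcn
      obtain ⟨c', hc', rfl⟩ := Cw_image π X n hcn
      rw [hπ, QuotientGroup.mk'_apply, QuotientGroup.eq_one_iff]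
      exact hcen c' hc')
    have h2 : (⊤ : Subgroup G).lowerCentralSeries n ≤ Subgroup.center G := by
      have h3 := map_lcs π hsurj n
      rw [h1, Subgroup.map_eq_bot_iff, hπ, QuotientGroup.ker_mk'] at h3
      exact h3
    rw [Subgroup.lowerCentralSeries_succ, Subgroup.commutator_eq_bot_iff_le_centralizer,
      Subgroup.coe_top, Subgroup.centralizer_univ]
    exact h2

end Pool.Agent.H23.HG
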